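import Pool.Agent.Helper358.LOne

set_option autoImplicit false

namespace Pool.Agent.Results.MP_b4ec01_an.OmegaPowerNotIso

open Pool.Agent.Helper358.LOne

universe u

/-- For every uncountable `κ` the Banach spaces `C(B(κ))` and `C(B(κ)^ω)` are not isomorphic.
(`B(κ) = Ball κ` carries the topology induced from the product `κ → ℝ`, and `≃L[ℝ]` is a linear
homeomorphism for the norm topologies.) -/
theorem result (κ : Type u) [Uncountable κ] :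
    IsEmpty (C(Ball κ, ℝ) ≃L[ℝ] C(ℕ → Ball κ, ℝ)) := by
  refine ⟨fun e => ?_⟩
  let d : C(Fin 1 → Ball κ, Ball κ) := ⟨fun x => x 0, continuous_apply 0⟩
  let P : C(Ball κ, ℝ) →L[ℝ] C(Fin 1 → Ball κ, ℝ) :=
    { toFun := fun g => g.comp d
      map_add' := fun f g => by ext x; rfl
      map_smul' := fun r f => by ext x; rfl
      cont := ContinuousMap.continuous_precomp d }
  have hP : ∀ g, ‖g‖ ≤ ‖P g‖ := fun g => by
    refine (ContinuousMap.norm_le _ (norm_nonneg _)).mpr fun x => ?_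
    exact (P g).norm_coe_le_norm (fun _ => x)
  let S : C(ℕ → Ball κ, ℝ) →L[ℝ] C(Fin 1 → Ball κ, ℝ) :=
    P.comp (e.symm : C(ℕ → Ball κ, ℝ) →L[ℝ] C(Ball κ, ℝ))
  obtain ⟨K, hK⟩ : ∃ K : ℝ, ∀ g, ‖e g‖ ≤ K * ‖g‖ :=
    ⟨_, (e : C(Ball κ, ℝ) →L[ℝ] C(ℕ → Ball κ, ℝ)).le_opNorm⟩
  have hK0 : 0 < |K| + 1 := by positivity
  refine omega_not_embed 1 S (c := (|K| + 1)⁻¹) (inv_pos.mpr hK0) fun g => ?_
  have h1 : ‖g‖ ≤ (|K| + 1) * ‖e.symm g‖ := by
    have h2 := hK (e.symm g)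
    rw [ContinuousLinearEquiv.apply_symm_apply] at h2
    refine h2.trans (mul_le_mul_of_nonneg_right ?_ (norm_nonneg _))
    linarith [le_abs_self K]
  calc (|K| + 1)⁻¹ * ‖g‖ ≤ (|K| + 1)⁻¹ * ((|K| + 1) * ‖e.symm g‖) :=
        mul_le_mul_of_nonneg_left h1 (inv_pos.mpr hK0).le
    _ = ‖e.symm g‖ := by rw [inv_mul_cancel_left₀ hK0.ne']
    _ ≤ ‖S g‖ := hP _

end Pool.Agent.Results.MP_b4ec01_an.OmegaPowerNotIso
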